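import Pool.Agent.Helper43.FV.Spec

/-!
# Generic lifting of points
-/

namespace Pool.Agent.Helper43.FV

open Pool.Agent.Helper43.RS

/-- Nullstellensatz: maximal ideals of finitely generated algebras are kernels of points. -/
theorem GLIFT_point (T : Type) [CommRing T] [Algebra ℂ T] [Algebra.FiniteType ℂ T]
    (M : Ideal T) [hM : M.IsMaximal] : ∃ ζ : T →ₐ[ℂ] ℂ, RingHom.ker ζ = M := by
  let : Field (T ⧸ M) := Ideal.Quotient.field M
  have : Algebra.FiniteType ℂ (T ⧸ M) := Algebra.FiniteType.of_surjective (Ideal.Quotient.mkₐ ℂ M)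
    (Ideal.Quotient.mkₐ_surjective ℂ M)
  have : Module.Finite ℂ (T ⧸ M) := finite_of_finite_type_of_isJacobsonRing ℂ (T ⧸ M)
  have hb : Function.Bijective (algebraMap ℂ (T ⧸ M)) :=
    IsAlgClosed.algebraMap_bijective_of_isIntegral
  let e : ℂ ≃ₐ[ℂ] (T ⧸ M) := AlgEquiv.ofBijective (Algebra.ofId ℂ (T ⧸ M)) hb
  refine ⟨(e.symm : (T ⧸ M) →ₐ[ℂ] ℂ).comp (Ideal.Quotient.mkₐ ℂ M), ?_⟩
  ext t
  rw [RingHom.mem_ker]
  change e.symm (Ideal.Quotient.mk M t) = 0 ↔ t ∈ M
  rw [map_eq_zero_iff e.symm e.symm.injective, Ideal.Quotient.eq_zero_iff_mem]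

theorem st_GLIFT : ST_GLIFT := by
  intro S T _ _ _ _ _ _ _ ι hι
  have hN : IsNoetherianRing S := Algebra.FiniteType.isNoetherianRing ℂ S
  have hft : (ι : S →+* T).FiniteType := by
    have h1 : (algebraMap ℂ T).FiniteType := by
      rw [RingHom.FiniteType]
      have : (algebraMap ℂ T).toAlgebra = (inferInstance : Algebra ℂ T) := by
        refine Algebra.algebra_ext _ _ fun _ => rfl
      rw [this]
      infer_instance
    have h2 : ((ι : S →+* T).comp (algebraMap ℂ S)).FiniteType := by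
      rwa [AlgHom.comp_algebraMap]
    exact RingHom.FiniteType.of_comp_finiteType h2
  have hfp : (ι : S →+* T).FinitePresentation := RingHom.FinitePresentation.of_finiteType.mp hft
  have hc := PrimeSpectrum.isConstructible_range_comap hfp
  obtain ⟨C, hC⟩ := PrimeSpectrum.exists_constructibleSetData_iff.mpr hc
  obtain ⟨Q, hQ, hQ0⟩ := Ideal.exists_comap_eq_of_mem_minimalPrimes_of_injective
    (f := (ι : S →+* T)) hι ⊥ (by
      rw [IsDomain.minimalPrimes_eq_singleton_bot]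
      rfl)
  have hgen : (⟨⊥, Ideal.isPrime_bot⟩ : PrimeSpectrum S) ∈ C.toSet := by
    rw [hC]
    exact ⟨⟨Q, hQ⟩, PrimeSpectrum.ext hQ0⟩
  rw [PrimeSpectrum.ConstructibleSetData.toSet] at hgen
  simp only [Set.mem_iUnion] at hgen
  obtain ⟨B, hB, hB1, hB2⟩ := hgen
  have hg : ∀ i, B.g i = 0 := by
    intro i
    have := hB1 ⟨i, rfl⟩
    simpa using this
  have hf : B.f ≠ 0 := by
    intro h0
    apply hB2
    rw [PrimeSpectrum.mem_zeroLocus, Set.singleton_subset_iff]
    exact h0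
  refine ⟨B.f, hf, fun z hz => ?_⟩
  have hzp : (RingHom.ker z).IsPrime := RingHom.ker_isPrime _
  have hzm : (RingHom.ker z).IsMaximal := by
    refine RingHom.ker_isMaximal_of_surjective z fun c => ⟨algebraMap ℂ S c, ?_⟩
    rw [AlgHom.commutes]
    rfl
  have hz1 : (⟨RingHom.ker z, hzp⟩ : PrimeSpectrum S) ∈ C.toSet := by
    rw [PrimeSpectrum.ConstructibleSetData.toSet]
    simp only [Set.mem_iUnion]
    refine ⟨B, hB, ?_, ?_⟩
    · rintro s ⟨i, rfl⟩
      rw [hg i]
      exact Submodule.zero_mem _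
    · intro h
      rw [PrimeSpectrum.mem_zeroLocus, Set.singleton_subset_iff] at h
      exact hz h
  rw [hC] at hz1
  obtain ⟨P, hP⟩ := hz1
  have hP' : P.asIdeal.comap (ι : S →+* T) = RingHom.ker z := by
    have := congrArg PrimeSpectrum.asIdeal hP
    exact this
  obtain ⟨M, hM, hPM⟩ := Ideal.exists_le_maximal P.asIdeal P.2.ne_top
  obtain ⟨ζ, hζ⟩ := GLIFT_point T M
  have hMz : M.comap (ι : S →+* T) = RingHom.ker z := by
    symm
    refine hzm.eq_of_le (Ideal.comap_ne_top _ hM.ne_top) ?_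
    rw [← hP']
    exact Ideal.comap_mono hPM
  refine ⟨ζ, AlgHom.ext fun s => ?_⟩
  have h1 : s - algebraMap ℂ S (z s) ∈ RingHom.ker z := by
    rw [RingHom.mem_ker, map_sub, AlgHom.commutes]
    exact sub_self _
  rw [← hMz, Ideal.mem_comap, ← hζ, RingHom.mem_ker] at h1
  have h2 : ζ (ι s) - ζ (ι (algebraMap ℂ S (z s))) = 0 := by
    rw [← map_sub, ← map_sub]
    exact h1
  rw [AlgHom.commutes, AlgHom.commutes] at h2
  exact sub_eq_zero.mp h2

end Pool.Agent.Helper43.FV
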