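import Pool.Agent.Helper43.FV.SpecG

/-!
# From (anti)regular bijections to field automorphisms
-/

namespace Pool.Agent.Helper43.FV

open Pool.Agent.Helper43.RS
open scoped ComplexConjugate TensorProduct
open MvPolynomial

section GMAPaux

variable {X : Type} {𝒜 : Atlas X} {K : Type} [Field K] [Algebra ℂ K]
  {cr : Fin 𝒜.k → MvPolynomial (Fin 𝒜.n) ℂ →ₐ[ℂ] K}

/-- the properties of values of rational functions (the conclusion of `ST_GEV`) -/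
structure GMAP_V (cr : Fin 𝒜.k → MvPolynomial (Fin 𝒜.n) ℂ →ₐ[ℂ] K) : Prop where
  uniq : ∀ f x c c', Ev cr f x c → Ev cr f x c' → c = c'
  add : ∀ f x c g d, Ev cr f x c → Ev cr g x d → Ev cr (f + g) x (c + d)
  mul : ∀ f x c g d, Ev cr f x c → Ev cr g x d → Ev cr (f * g) x (c * d)
  inv : ∀ f x c, Ev cr f x c → c ≠ 0 → Ev cr f⁻¹ x c⁻¹
  const : ∀ x c, Ev cr (algebraMap ℂ K c) x c
  poly : ∀ i p x, x ∈ 𝒜.U i → Ev cr (cr i p) x (eval (𝒜.φ i x) p)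
  rep : ∀ f x c i, Ev cr f x c → x ∈ 𝒜.U i → ∃ p q, eval (𝒜.φ i x) q ≠ 0 ∧
        f * cr i q = cr i p ∧ c * eval (𝒜.φ i x) q = eval (𝒜.φ i x) p
  ident : ∀ f g, (∃ i, ∃ x ∈ 𝒜.U i, ∃ q, eval (𝒜.φ i x) q ≠ 0 ∧ ∀ y ∈ 𝒜.U i,
        eval (𝒜.φ i y) q ≠ 0 → ∃ c, Ev cr f y c ∧ Ev cr g y c) → f = g

theorem GMAP_V_of (hGEV : ST_GEV) (hA : IsNormalVariety 𝒜) (hK : IsFunK 𝒜 cr) :
    GMAP_V cr := by
  obtain ⟨h1, h2, h3, h4, h5, h6, h7, h8⟩ := hGEV X 𝒜 hA K cr hK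
  exact ⟨h1, h2, h3, h4, h5, h6, h7, h8⟩

/-- a property holding on a nonempty principal open subset of the chart `i` -/
def GMAP_Gen (cr : Fin 𝒜.k → MvPolynomial (Fin 𝒜.n) ℂ →ₐ[ℂ] K) (i : Fin 𝒜.k)
    (P : X → Prop) : Prop :=
  ∃ r, cr i r ≠ 0 ∧ ∀ y ∈ 𝒜.U i, eval (𝒜.φ i y) r ≠ 0 → P y

theorem GMAP_Gen_and {i : Fin 𝒜.k} {P Q : X → Prop} (hP : GMAP_Gen cr i P)
    (hQ : GMAP_Gen cr i Q) : GMAP_Gen cr i (fun y => P y ∧ Q y) := by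
  obtain ⟨r, hr, hr'⟩ := hP
  obtain ⟨s, hs, hs'⟩ := hQ
  refine ⟨r * s, by rw [map_mul]; exact mul_ne_zero hr hs, fun y hy h => ?_⟩
  rw [map_mul] at h
  exact ⟨hr' y hy (left_ne_zero_of_mul h), hs' y hy (right_ne_zero_of_mul h)⟩

theorem GMAP_Gen_mono {i : Fin 𝒜.k} {P Q : X → Prop} (hP : GMAP_Gen cr i P)
    (h : ∀ y, P y → Q y) : GMAP_Gen cr i Q := by
  obtain ⟨r, hr, hr'⟩ := hP
  exact ⟨r, hr, fun y hy h' => h y (hr' y hy h')⟩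

theorem GMAP_pt (hK : IsFunK 𝒜 cr) {i : Fin 𝒜.k} {r : MvPolynomial (Fin 𝒜.n) ℂ}
    (hr : cr i r ≠ 0) : ∃ y ∈ 𝒜.U i, eval (𝒜.φ i y) r ≠ 0 := by
  by_contra h
  push Not at h
  exact hr ((hK.zero i r).mpr h)

theorem GMAP_ne (hK : IsFunK 𝒜 cr) {i : Fin 𝒜.k} {r : MvPolynomial (Fin 𝒜.n) ℂ}
    {y : X} (hy : y ∈ 𝒜.U i) (h : eval (𝒜.φ i y) r ≠ 0) : cr i r ≠ 0 := fun h0 =>
  h ((hK.zero i r).mp h0 y hy)

theorem GMAP_frac {i : Fin 𝒜.k} {p q : MvPolynomial (Fin 𝒜.n) ℂ} {f : K}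
    (h : f * cr i q = cr i p) {y : X} (hy : y ∈ 𝒜.U i) (hq : eval (𝒜.φ i y) q ≠ 0) :
    Ev cr f y (eval (𝒜.φ i y) p * (eval (𝒜.φ i y) q)⁻¹) :=
  ⟨i, p, q, hy, hq, h, by rw [mul_assoc, inv_mul_cancel₀ hq, mul_one]⟩

theorem GMAP_Gen_trans (hA : IsNormalVariety 𝒜) (hK : IsFunK 𝒜 cr) (V : GMAP_V cr)
    {j : Fin 𝒜.k} {P : X → Prop} (hP : GMAP_Gen cr j P) (i : Fin 𝒜.k) :
    GMAP_Gen cr i P := by
  obtain ⟨r, hr, hr'⟩ := hP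
  obtain ⟨b, a, ha, hb⟩ := hK.frac i (cr j r)
  obtain ⟨w, hw1, hw2⟩ := hA.irreducible i j
  obtain ⟨s, p, hs, hs'⟩ := hA.trans i j w hw1 hw2
  have hb0 : cr i b ≠ 0 := by
    rw [← hb]
    exact mul_ne_zero hr ha
  refine ⟨b * a * s, ?_, fun y hy h => ?_⟩
  · rw [map_mul, map_mul]
    exact mul_ne_zero (mul_ne_zero hb0 ha) (GMAP_ne hK hw1 hs)
  · rw [map_mul, map_mul] at h
    have h1 := left_ne_zero_of_mul (left_ne_zero_of_mul h)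
    have h2 := right_ne_zero_of_mul (left_ne_zero_of_mul h)
    have h3 := right_ne_zero_of_mul h
    have hyj : y ∈ 𝒜.U j := (hs' y hy h3).1
    refine hr' y hyj ?_
    rw [V.uniq _ _ _ _ (V.poly j r y hyj) (GMAP_frac hb hy h2)]
    exact mul_ne_zero h1 (inv_ne_zero h2)

theorem GMAP_Gen_reg (hK : IsFunK 𝒜 cr) (f : K) (i : Fin 𝒜.k) :
    GMAP_Gen cr i (fun y => ∃ c, Ev cr f y c) := by
  obtain ⟨p, q, hq, h⟩ := hK.frac i f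
  exact ⟨q, hq, fun y hy hqy => ⟨_, GMAP_frac h hy hqy⟩⟩

theorem GMAP_Gen_eq (hK : IsFunK 𝒜 cr) (V : GMAP_V cr) {f g : K} {i : Fin 𝒜.k}
    (h : GMAP_Gen cr i (fun y => ∃ c, Ev cr f y c ∧ Ev cr g y c)) : f = g := by
  obtain ⟨r, hr, hr'⟩ := h
  obtain ⟨y, hy, hy'⟩ := GMAP_pt hK hr
  exact V.ident f g ⟨i, y, hy, r, hy', hr'⟩

theorem GMAP_aeval (V : GMAP_V cr) {n : ℕ} {y : X} {u : Fin n → K} {v : Fin n → ℂ}
    (h : ∀ l, Ev cr (u l) y (v l)) (P : MvPolynomial (Fin n) ℂ) :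
    Ev cr (aeval u P) y (eval v P) := by
  induction P using MvPolynomial.induction_on with
  | C a => 
    rw [aeval_C, eval_C]
    exact V.const y a
  | add p q hp hq => 
    rw [map_add, map_add]
    exact V.add _ _ _ _ _ hp hq
  | mul_X p l hp => 
    rw [map_mul, map_mul, aeval_X, eval_X]
    exact V.mul _ _ _ _ _ hp (h l)

theorem GMAP_eval_map (τ : ℂ →+* ℂ) {n : ℕ} (v : Fin n → ℂ) (P : MvPolynomial (Fin n) ℂ) :
    eval (fun l => τ (v l)) (map τ P) = τ (eval v P) := by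
  induction P using MvPolynomial.induction_on with
  | C a => rw [map_C, eval_C, eval_C]
  | add p q hp hq => rw [map_add, map_add, map_add, map_add, hp, hq]
  | mul_X p l hp => rw [map_mul, map_mul, map_mul, map_mul, hp, map_X, eval_X, eval_X]

/-- regularity up to the automorphism `τ` of `ℂ` -/
def GMAP_R (𝒜 : Atlas X) (τ : ℂ →+* ℂ) (g : X → X) : Prop :=
  ∀ i j x, x ∈ 𝒜.U i → g x ∈ 𝒜.U j →
    ∃ (q : MvPolynomial (Fin 𝒜.n) ℂ) (p : Fin 𝒜.n → MvPolynomial (Fin 𝒜.n) ℂ),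
    eval (𝒜.φ i x) q ≠ 0 ∧ ∀ y ∈ 𝒜.U i, eval (𝒜.φ i y) q ≠ 0 →
      g y ∈ 𝒜.U j ∧ ∀ l, τ (𝒜.φ j (g y) l) * eval (𝒜.φ i y) q = eval (𝒜.φ i y) (p l)

/-- `h'` is `τ (h ∘ g)` near a general point -/
def GMAP_Rel (cr : Fin 𝒜.k → MvPolynomial (Fin 𝒜.n) ℂ →ₐ[ℂ] K) (τ : ℂ →+* ℂ) (g : X → X)
    (h h' : K) (i : Fin 𝒜.k) : Prop :=
  GMAP_Gen cr i (fun y => ∃ c, Ev cr h (g y) c ∧ Ev cr h' y (τ c))

theorem GMAP_L1 (hA : IsNormalVariety 𝒜) (hK : IsFunK 𝒜 cr) (V : GMAP_V cr)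
    {τ : ℂ →+* ℂ} {g : X → X} (hg : GMAP_R 𝒜 τ g) {h : K} {x : X} {c : ℂ}
    (hx : Ev cr h (g x) c) : ∃ h' i, Ev cr h' x (τ c) ∧ GMAP_Rel cr τ g h h' i := by
  obtain ⟨j, p, q, hj, hq, hpq, hc⟩ := hx
  obtain ⟨i, hi⟩ := hA.cover x
  obtain ⟨s, t, hs, hst⟩ := hg i j x hi hj
  set u : Fin 𝒜.n → K := fun l => cr i (t l) * (cr i s)⁻¹ with hu
  have hτ : ∀ z : ℂ, z ≠ 0 → τ z ≠ 0 := fun z hz => (map_ne_zero τ).mpr hz
  have hEu : ∀ y ∈ 𝒜.U i, eval (𝒜.φ i y) s ≠ 0 → ∀ P : MvPolynomial (Fin 𝒜.n) ℂ,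
      Ev cr (aeval u (map τ P)) y (τ (eval (𝒜.φ j (g y)) P)) := by
    intro y hy hsy P
    rw [← GMAP_eval_map τ]
    refine GMAP_aeval V (fun l => ?_) _
    have e1 : τ (𝒜.φ j (g y) l) = eval (𝒜.φ i y) (t l) * (eval (𝒜.φ i y) s)⁻¹ := by
      rw [← (hst y hy hsy).2 l, mul_assoc, mul_inv_cancel₀ hsy, mul_one]
    rw [e1]
    exact V.mul _ _ _ _ _ (V.poly i (t l) y hy) (V.inv _ _ _ (V.poly i s y hy) hsy)
  have hval : ∀ y ∈ 𝒜.U i, eval (𝒜.φ i y) s ≠ 0 → eval (𝒜.φ j (g y)) q ≠ 0 →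
      Ev cr (aeval u (map τ p) * (aeval u (map τ q))⁻¹) y
        (τ (eval (𝒜.φ j (g y)) p * (eval (𝒜.φ j (g y)) q)⁻¹)) := by
    intro y hy hsy hqy
    rw [map_mul, map_inv₀]
    exact V.mul _ _ _ _ _ (hEu y hy hsy p) (V.inv _ _ _ (hEu y hy hsy q) (hτ _ hqy))
  have hB : aeval u (map τ q) ≠ 0 := by
    intro h0
    have e1 := hEu x hi hs q
    rw [h0] at e1
    have e2 := V.const x 0
    rw [map_zero] at e2
    exact hτ _ hq (V.uniq _ _ _ _ e1 e2)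
  refine ⟨aeval u (map τ p) * (aeval u (map τ q))⁻¹, i, ?_, ?_⟩
  · have e1 := hval x hi hs hq
    rwa [← hc, mul_assoc, mul_inv_cancel₀ hq, mul_one] at e1
  · obtain ⟨a, b, hb, hab⟩ := hK.frac i (aeval u (map τ q))
    have ha : cr i a ≠ 0 := by
      rw [← hab]
      exact mul_ne_zero hB hb
    refine ⟨s * a * b, ?_, fun y hy hr => ?_⟩
    · rw [map_mul, map_mul]
      exact mul_ne_zero (mul_ne_zero (GMAP_ne hK hi hs) ha) hb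
    · rw [map_mul, map_mul] at hr
      have h1 := left_ne_zero_of_mul (left_ne_zero_of_mul hr)
      have h2 := right_ne_zero_of_mul (left_ne_zero_of_mul hr)
      have h3 := right_ne_zero_of_mul hr
      have h4 : eval (𝒜.φ j (g y)) q ≠ 0 := by
        intro h0
        have e1 := V.uniq _ _ _ _ (hEu y hy h1 q) (GMAP_frac hab hy h3)
        rw [h0, map_zero] at e1
        exact mul_ne_zero h2 (inv_ne_zero h3) e1.symm
      exact ⟨_, GMAP_frac hpq (hst y hy h1).1 h4, hval y hy h1 h4⟩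

theorem GMAP_Rel_uniq (hA : IsNormalVariety 𝒜) (hK : IsFunK 𝒜 cr) (V : GMAP_V cr)
    {τ : ℂ →+* ℂ} {g : X → X} {h h' h'' : K} {i j : Fin 𝒜.k}
    (h1 : GMAP_Rel cr τ g h h' i) (h2 : GMAP_Rel cr τ g h h'' j) : h' = h'' := by
  have h3 : GMAP_Rel cr τ g h h'' i := GMAP_Gen_trans hA hK V h2 i
  refine GMAP_Gen_eq hK V (i := i) (GMAP_Gen_mono (GMAP_Gen_and h1 h3) ?_)
  rintro y ⟨⟨c, hc, hc'⟩, ⟨d, hd, hd'⟩⟩
  have e := V.uniq _ _ _ _ hc hd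
  subst e
  exact ⟨_, hc', hd'⟩

/-- the pull back map on rational functions -/
theorem GMAP_L2 (hA : IsNormalVariety 𝒜) (hK : IsFunK 𝒜 cr) (V : GMAP_V cr)
    {τ : ℂ →+* ℂ} {g : X → X} (hg : GMAP_R 𝒜 τ g) (hs : Function.Surjective g) :
    ∃ a : K → K, (∀ h x c, Ev cr h (g x) c → Ev cr (a h) x (τ c)) ∧
      ∀ h i, GMAP_Gen cr i (fun y => ∃ c, Ev cr h (g y) c ∧ Ev cr (a h) y (τ c)) := by
  have h0 : ∀ h : K, ∃ h' i, GMAP_Rel cr τ g h h' i := by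
    intro h
    obtain ⟨r, hr, hr'⟩ := GMAP_Gen_reg hK h ⟨0, hA.charts⟩
    obtain ⟨z, hz, hz'⟩ := GMAP_pt hK hr
    obtain ⟨c, hc⟩ := hr' z hz hz'
    obtain ⟨x, rfl⟩ := hs z
    obtain ⟨h', i, -, h2⟩ := GMAP_L1 hA hK V hg hc
    exact ⟨h', i, h2⟩
  choose a i ha using h0
  refine ⟨a, fun h x c hc => ?_, fun h j => GMAP_Gen_trans hA hK V (ha h) j⟩
  obtain ⟨h', j, h1, h2⟩ := GMAP_L1 hA hK V hg hc
  rwa [GMAP_Rel_uniq hA hK V (ha h) h2]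

/-- the local ring of a point -/
def GMAP_O (V : GMAP_V cr) (x : X) : Subalgebra ℂ K where
  carrier := {f | ∃ c, Ev cr f x c}
  mul_mem' := by
    rintro a b ⟨c, hc⟩ ⟨d, hd⟩
    exact ⟨_, V.mul _ _ _ _ _ hc hd⟩
  add_mem' := by
    rintro a b ⟨c, hc⟩ ⟨d, hd⟩
    exact ⟨_, V.add _ _ _ _ _ hc hd⟩
  algebraMap_mem' := fun c => ⟨c, V.const x c⟩

theorem GMAP_pres (V : GMAP_V cr) {τ : ℂ →+* ℂ} (hττ : ∀ c, τ (τ c) = c) {a : K → K}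
    {f : X ≃ X} (h : ∀ h x c, Ev cr h x c ↔ Ev cr (a h) (f x) (τ c)) :
    Pres (PtSet cr) a := by
  have key : ∀ h x, (∃ c, Ev cr h x c) ↔ ∃ c, Ev cr (a h) (f x) c := by
    intro k x
    constructor
    · rintro ⟨c, hc⟩
      exact ⟨_, (h k x c).mp hc⟩
    · rintro ⟨c, hc⟩
      refine ⟨τ c, (h k x (τ c)).mpr ?_⟩
      rwa [hττ]
  constructor
  · rintro O ⟨x, hx⟩
    refine ⟨GMAP_O V (f x), ⟨f x, fun k => Iff.rfl⟩, fun k => ?_⟩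
    rw [hx, key]
    rfl
  · rintro O ⟨x, hx⟩
    refine ⟨GMAP_O V (f.symm x), ⟨f.symm x, fun k => Iff.rfl⟩, fun k => ?_⟩
    rw [hx, show k ∈ GMAP_O V (f.symm x) ↔ ∃ c, Ev cr k (f.symm x) c from Iff.rfl, key,
      Equiv.apply_symm_apply]

theorem GMAP_main (hA : IsNormalVariety 𝒜) (hK : IsFunK 𝒜 cr) (V : GMAP_V cr)
    {τ : ℂ →+* ℂ} (hττ : ∀ c, τ (τ c) = c) {f : X ≃ X} (hf : GMAP_R 𝒜 τ f)
    (hf' : GMAP_R 𝒜 τ f.symm) : ∃ a : K ≃+* K, Pres (PtSet cr) a ∧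
      (∀ c, a (algebraMap ℂ K c) = algebraMap ℂ K (τ c)) ∧
      ∀ h x c, Ev cr h x c ↔ Ev cr (a h) (f x) (τ c) := by
  obtain ⟨a, ha, ha'⟩ := GMAP_L2 hA hK V hf' f.symm.surjective
  obtain ⟨b, hb, hb'⟩ := GMAP_L2 hA hK V hf f.surjective
  have i0 : Fin 𝒜.k := ⟨0, hA.charts⟩
  have ha1 : ∀ h x c, Ev cr h x c → Ev cr (a h) (f x) (τ c) := by
    intro h x c hc
    refine ha h (f x) c ?_
    rwa [Equiv.symm_apply_apply]
  have hab : ∀ h, a (b h) = h := by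
    intro h
    refine GMAP_Gen_eq hK V (i := i0) (GMAP_Gen_mono (GMAP_Gen_reg hK h i0) ?_)
    rintro y ⟨c, hc⟩
    refine ⟨c, ?_, hc⟩
    have e1 := ha (b h) y (τ c) (hb h (f.symm y) c (by rwa [Equiv.apply_symm_apply]))
    rwa [hττ] at e1
  have hba : ∀ h, b (a h) = h := by
    intro h
    refine GMAP_Gen_eq hK V (i := i0) (GMAP_Gen_mono (GMAP_Gen_reg hK h i0) ?_)
    rintro y ⟨c, hc⟩
    refine ⟨c, ?_, hc⟩
    have e1 := hb (a h) y (τ c) (ha1 h y c hc)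
    rwa [hττ] at e1
  let e : K ≃+* K :=
    { toFun := a
      invFun := b
      left_inv := hba
      right_inv := hab
      map_mul' := by
        intro h k
        refine GMAP_Gen_eq hK V (i := i0) (GMAP_Gen_mono (GMAP_Gen_and (ha' h i0) (ha' k i0)) ?_)
        rintro y ⟨⟨c, hc, hc'⟩, ⟨d, hd, hd'⟩⟩
        refine ⟨τ (c * d), ha _ _ _ (V.mul _ _ _ _ _ hc hd), ?_⟩
        rw [map_mul]
        exact V.mul _ _ _ _ _ hc' hd'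
      map_add' := by
        intro h k
        refine GMAP_Gen_eq hK V (i := i0) (GMAP_Gen_mono (GMAP_Gen_and (ha' h i0) (ha' k i0)) ?_)
        rintro y ⟨⟨c, hc, hc'⟩, ⟨d, hd, hd'⟩⟩
        refine ⟨τ (c + d), ha _ _ _ (V.add _ _ _ _ _ hc hd), ?_⟩
        rw [map_add]
        exact V.add _ _ _ _ _ hc' hd' }
  have he : ∀ h x c, Ev cr h x c ↔ Ev cr (e h) (f x) (τ c) := by
    intro h x c
    refine ⟨ha1 h x c, fun h1 => ?_⟩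
    have e1 : Ev cr (b (a h)) x (τ (τ c)) := hb (a h) x (τ c) h1
    rwa [hba, hττ] at e1
  refine ⟨e, GMAP_pres V hττ he, fun c => ?_, he⟩
  refine GMAP_Gen_eq hK V (i := i0) (GMAP_Gen_mono (ha' (algebraMap ℂ K c) i0) ?_)
  rintro y -
  exact ⟨τ c, ha _ _ _ (V.const _ c), V.const _ _⟩

end GMAPaux

theorem st_GMAP (hGEV : ST_GEV) : ST_GMAP := by
  intro X 𝒜 hA K _ _ cr hK f
  have V := GMAP_V_of hGEV hA hK
  constructor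
  · intro hf hf'
    obtain ⟨a, h1, h2, h3⟩ := GMAP_main hA hK V (τ := RingHom.id ℂ) (fun _ => rfl)
      (f := f) hf hf'
    exact ⟨AlgEquiv.ofRingEquiv (f := a) h2, h1, h3⟩
  · intro hf hf'
    exact GMAP_main hA hK V (τ := starRingEnd ℂ) (fun c => Complex.conj_conj c) (f := f) hf hf'

end Pool.Agent.Helper43.FV
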